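import Mathlib
import Pool.Agent.Helper669.KPowB

set_option autoImplicit false

/-!
# The strong polarized relation at the size of the power set of an inaccessible cardinal which
is not weakly compact
-/

namespace Pool.Agent.Results.MP_98d601_lc.Indestructible

open Cardinal Pool.Agent.Helper669.Forcing Pool.Agent.Helper669.K

/-- If `κ` is measurable in every extension by a `κ`-directed closed forcing notion, then there
are a forcing notion and a cardinal `μ > κ` such that it is forced that `κ` is regular and a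
strong limit, and not weakly compact, `μ` is a regular cardinal, `2 ^ κ = μ`, and the strong
polarized relation `(μ, κ) → (μ, κ)` holds. -/
theorem result (κ : Cardinal.{0}) (h : IndestructiblyMeasurable κ) :
    ∃ (P : Type) (_ : Preorder P) (μ : Cardinal.{0}), Nonempty P ∧ κ < μ ∧ ∀ p : P,
      p ∈ StaysRegular P κ ∧ p ∈ StaysStrongLimit P κ ∧
      p ∈ fnot (PairsPartition P κ.ord.ToType) ∧
      p ∈ StaysRegular P μ ∧ p ∈ PowerSize P κ.ord.ToType μ.ord.ToType ∧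
      p ∈ Polarized P μ.ord.ToType κ.ord.ToType := by
  obtain ⟨hκ, h2⟩ := regular_of_measurable h
  have hκ0 := hκ.aleph0_le
  obtain ⟨μ, hμdef⟩ : ∃ μ : Cardinal.{0}, μ = Order.succ (2 ^ κ) := ⟨_, rfl⟩
  have h2κ : ℵ₀ ≤ 2 ^ κ := hκ0.trans (cantor κ).le
  have hμ : μ.IsRegular := by
    rw [hμdef]
    exact isRegular_succ h2κ
  have hκμ : Order.succ κ < μ := by
    rw [hμdef]
    exact (Order.succ_le_of_lt (cantor κ)).trans_lt (Order.lt_succ _)
  have hκμ' : κ < μ := (Order.lt_succ κ).trans hκμ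
  have hμκ : μ ^ κ ≤ μ := by
    rw [hμdef]
    exact pow_succ_le hκ0
  haveI : Nonempty μ.ord.ToType := by
    rw [← mk_ne_zero_iff, mk_ord_toType]
    exact hμ.pos.ne'
  let L : Type := (Order.succ κ).ord.ToType ×ₗ μ.ord.ToType
  have hLμ : #L = μ := lex_mk hκ0 hκμ'
  obtain ⟨Γ, hΓ⟩ := lex_bound hκ0 μ.ord.ToType
  have hKκ : #κ.ord.ToType ≤ κ := (mk_ord_toType κ).le
  have hZ : #(κ.ord.ToType × RP κ.ord.ToType) ≤ κ := by
    rw [mk_prod, lift_id, lift_id]
    exact (mul_le_mul' hKκ (RP.mk_le hκ h2)).trans (mul_eq_self hκ0).le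
  obtain ⟨e, he⟩ := exists_enum_le hκ0 hμκ hκμ'.le L (κ.ord.ToType × RP κ.ord.ToType)
    (SP κ.ord.ToType) κ.ord.ToType μ.ord.ToType hLμ.le hZ (SP.mk_le hκ h2) hKκ (mk_ord_toType μ)
  obtain ⟨W, hW⟩ := exists_W (L := L) (RP.st (K := κ.ord.ToType)) e
  have hR := RP.dirClosed hκ
  have hU : ∀ (α : L) (q : PR (rel W α) × RP κ.ord.ToType),
      q ∈ IsMeasure κ (theU κ κ.ord.ToType (PR (rel W α) × RP κ.ord.ToType)) := by
    intro α q
    exact theU_spec (exists_name (h.2 _ (dirClosed_prod (dirClosed_PR _ e hW hκ α) hR))) q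
  have hst : ∀ a b : RP κ.ord.ToType, a ≤ b → a.st ≤ b.st := fun a b h => h.1
  have hlift : ∀ (r : RP κ.ord.ToType) (s : SP κ.ord.ToType), s ≤ r.st →
      ∃ r' ≤ r, r'.st = s := fun r s hs => RP.exists_lift r s hs
  have hsurj : ∀ s : SP κ.ord.ToType, ∃ r : RP κ.ord.ToType, r.st = s := RP.exists_st
  obtain ⟨j⟩ : Nonempty (κ.ord.ToType × RP κ.ord.ToType ↪ κ.ord.ToType) := by
    rw [← Cardinal.le_def, mk_ord_toType]
    exact hZ
  obtain ⟨g⟩ : Nonempty (μ.ord.ToType ↪ L) := by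
    rw [← Cardinal.le_def, mk_ord_toType]
    exact hLμ.ge
  have hne : Nonempty κ.ord.ToType := by
    rw [← mk_ne_zero_iff, mk_ord_toType]
    exact hκ.pos.ne'
  have hcc := cc_PW _ e hW hκ h2 hKκ (RP.mk_le hκ h2) (SP.mk_le hκ h2)
  refine ⟨PW W × SP κ.ord.ToType, inferInstance, μ, ?_, hκμ', fun p => ⟨?_, ?_, ?_, ?_, ?_, ?_⟩⟩
  · obtain ⟨a⟩ := hne
    exact ⟨(PW.mk W ⟨∅, ∅, by simpa using hκ.pos, by simpa using hκ.pos⟩,
      ⟨a, fun _ _ => false, fun _ _ _ _ => by simp, fun _ _ _ => rfl⟩)⟩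
  · exact staysRegular_PW _ e hW hκ hR hst hlift hsurj p
  · refine staysStrongLimit_of_distr h2 (distr_proj (Q := PW W × RP κ.ord.ToType)
      (fun N D hN hd hdense q => exists_forall_mem hκ0
        (dirClosed_prod (dirClosed_PW _ e hW hκ) hR) hN D hd hdense q)
      (fun y => (y.1, RP.st y.2))
      (fun (a b : PW W × RP κ.ord.ToType) (h : a ≤ b) =>
        Prod.mk_le_mk.2 ⟨h.1, hst _ _ h.2⟩) ?_ ?_) p
    · rintro ⟨a, r⟩ ⟨b, s⟩ ⟨h, h'⟩
      obtain ⟨r', hr', rfl⟩ := hlift r s h'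
      exact ⟨(b, r'), ⟨h, hr'⟩, le_rfl⟩
    · rintro ⟨b, s⟩
      obtain ⟨r, rfl⟩ := hsurj s
      exact ⟨(b, r), le_rfl⟩
  · exact not_pairsPartition hκ h.1 (dirClosed_PW _ e hW hκ) p
  · exact staysRegular_of_cc hκ0 hμ hκμ' hcc p
  · exact powerSize_PW _ e hW hκ hR hU hst hsurj (SP.mk_le hκ h2) he j j.injective hcc g
      g.injective p
  · exact polarized_full _ e hW hκ h2 (RP.mk_le hκ h2) (SP.mk_le hκ h2) hR hU hst hlift hsurj he
      hμ hκμ Γ hΓ p

end Pool.Agent.Results.MP_98d601_lc.Indestructible
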